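import Pool.Agent.H23.PL.Targets

/-!
# Row GDJ of `pld_modules`: good numbers have a positive share
-/

set_option autoImplicit false

open Finset Polynomial Pool.Agent.H23.PL

namespace Pool.Agent.H64.PLD

lemma ZB_pos (B : Finset ℕ) (hB : ∀ p ∈ B, p.Prime) : 0 < ZB B := by
  unfold ZB
  refine prod_pos fun p hp => ?_
  have h2 : (2 : ℝ) ≤ p := by exact_mod_cast (hB p hp).two_le
  rw [inv_pos, sub_pos, div_lt_one (by linarith)]
  linarith

lemma PR_prime {u y : ℝ} {p : ℕ} (hp : p ∈ PR u y) : p.Prime := (mem_filter.mp hp).2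

lemma PR_subset {u u' y y' : ℝ} (hu : u' ≤ u) (hy : y ≤ y') : PR u y ⊆ PR u' y' := by
  intro p hp
  rw [PR, mem_filter, mem_Ioc] at hp ⊢
  exact ⟨⟨(Nat.floor_le_floor hu).trans_lt hp.1.1, hp.1.2.trans (Nat.floor_le_floor hy)⟩, hp.2⟩

lemma PR_split {u z y : ℝ} (huz : u ≤ z) (hzy : z ≤ y) : ZB (PR u y) = ZB (PR u z) * ZB (PR z y) := by
  unfold ZB
  rw [← prod_union]
  · congr 1
    unfold PR
    rw [← filter_union, Ioc_union_Ioc_eq_Ioc (Nat.floor_le_floor huz) (Nat.floor_le_floor hzy)]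
  · unfold PR
    rw [disjoint_left]
    intro p hp hq
    rw [mem_filter, mem_Ioc] at hp hq
    omega

theorem pf_GDJ (hMR1 : T_MR1) (hMR2 : T_MR2) (hZBS : T_ZBS) (hZBL : T_ZBL) : T_GDJ := by
  classical
  obtain ⟨C1, hC1, h1⟩ := hMR1
  obtain ⟨C2, hC2, -, h2⟩ := hMR2
  set D : ℝ := max C2 1 with hD
  have hD1 : 1 ≤ D := le_max_right _ _
  have hDC : C2 ≤ D := le_max_left _ _
  refine ⟨1 / (32 * D), max (2 ^ 16) (Real.exp (16 * C1)), by positivity, ?_, ?_⟩
  · rw [div_lt_one (by positivity)]; linarith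
  intro u y S hy hu huz hS
  have hy1 : (2 : ℝ) ^ 16 ≤ y := (le_max_left _ _).trans hy
  have hy2 : Real.exp (16 * C1) ≤ y := (le_max_right _ _).trans hy
  have hy0 : 0 < y := lt_of_lt_of_le (by positivity) hy1
  have hlogy : 16 * C1 ≤ Real.log y := (Real.le_log_iff_exp_le hy0).mpr hy2
  have hlogpos : 0 < Real.log y := by linarith
  set z : ℝ := y ^ (1 / 16 : ℝ) with hz
  have hz2 : 2 ≤ z := by
    rw [hz]
    have h3 : (2 : ℝ) = ((2 : ℝ) ^ 16) ^ (1 / 16 : ℝ) := by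
      rw [← Real.rpow_natCast, ← Real.rpow_mul (by norm_num)]
      norm_num
    rw [h3]
    exact Real.rpow_le_rpow (by positivity) hy1 (by norm_num)
  have hlogz : Real.log z = Real.log y / 16 := by
    rw [hz, Real.log_rpow hy0]; ring
  have hy1' : 1 ≤ y := by linarith [hy1, (by norm_num : (1 : ℝ) ≤ 2 ^ 16)]
  have hzy : z ≤ y := by
    rw [hz]
    calc y ^ (1 / 16 : ℝ) ≤ y ^ (1 : ℝ) := Real.rpow_le_rpow_of_exponent_le hy1' (by norm_num)
      _ = y := Real.rpow_one y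
  set Y : ℝ := y ^ (1 / 4 : ℝ) with hY
  have hlogY : Real.log Y = Real.log y / 4 := by
    rw [hY, Real.log_rpow hy0]; ring
  have hY0 : 0 < Y := Real.rpow_pos_of_pos hy0 _
  have hY1 : 1 < Y := by
    rw [← Real.log_pos_iff hY0.le, hlogY]
    positivity
  set G0 : Finset ℕ := (Icc 1 ⌊Y⌋₊).filter (Sm (PR u z)) with hG0
  -- the smooth numbers
  have h3 : ZB (PR u z) / 2 ≤ ∑ a ∈ G0, 1 / (a : ℝ) := by
    have h4 := hZBL (PR u z) Y (fun p hp => PR_prime hp) hY1
    have h5 : ∑ p ∈ PR u z, Real.log p / ((p : ℝ) - 1) ≤ Real.log y / 16 + C1 := by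
      calc ∑ p ∈ PR u z, Real.log p / ((p : ℝ) - 1)
          ≤ ∑ p ∈ PR 0 z, Real.log p / ((p : ℝ) - 1) := by
            refine sum_le_sum_of_subset_of_nonneg (PR_subset hu le_rfl) fun p hp _ => ?_
            have h6 : (1 : ℝ) ≤ p := by exact_mod_cast (PR_prime hp).one_lt.le
            exact div_nonneg (Real.log_nonneg h6) (by linarith)
        _ ≤ Real.log z + C1 := h1 z (by linarith)
        _ = Real.log y / 16 + C1 := by rw [hlogz]
    have h7 : (∑ p ∈ PR u z, Real.log p / ((p : ℝ) - 1)) / Real.log Y ≤ 1 / 2 := by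
      rw [hlogY, div_le_iff₀ (by positivity)]
      linarith
    have h8 : ZB (PR u z) * (1 / 2) ≤
        ZB (PR u z) * (1 - (∑ p ∈ PR u z, Real.log p / ((p : ℝ) - 1)) / Real.log Y) :=
      mul_le_mul_of_nonneg_left (by linarith) (ZB_pos _ fun p hp => PR_prime hp).le
    have h9 : ZB (PR u z) * (1 / 2) = ZB (PR u z) / 2 := by ring
    rw [h9] at h8
    exact h8.trans h4
  -- the share of the smooth numbers
  have h10 : ZB (PR u y) ≤ ZB (PR u z) * (16 * D) := by
    rw [PR_split huz hzy]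
    refine mul_le_mul_of_nonneg_left ?_ (ZB_pos _ fun p hp => PR_prime hp).le
    calc ZB (PR z y) ≤ C2 * (Real.log y / Real.log z) := h2 z y hz2 hzy
      _ = 16 * C2 := by rw [hlogz]; field_simp
      _ ≤ 16 * D := by linarith
  have h11 : ZB (PR u y) * (1 / (32 * D)) ≤ ∑ a ∈ G0, 1 / (a : ℝ) := by
    refine le_trans ?_ h3
    rw [mul_one_div, div_le_div_iff₀ (by positivity) (by norm_num)]
    linarith
  -- the union
  have hdis : Disjoint S G0 := by
    rw [disjoint_left]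
    intro a ha hg
    apply (hS a ha).2
    rw [hG0, mem_filter, mem_Icc] at hg
    obtain ⟨⟨_, hg1⟩, _, hg2⟩ := hg
    refine ⟨fun p hp hpa => ?_, (Nat.cast_le.mpr hg1).trans (Nat.floor_le hY0.le)⟩
    have h12 := hg2 p (PR_prime hp) hpa
    change p ∈ PR z y at hp
    rw [PR, mem_filter, mem_Ioc] at hp h12
    omega
  have h13 : ∑ a ∈ S ∪ G0, 1 / (a : ℝ) ≤ ZB (PR u y) := by
    refine hZBS (PR u y) (S ∪ G0) (fun p hp => PR_prime hp) fun a ha => ?_
    rcases mem_union.mp ha with ha | ha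
    · exact (hS a ha).1
    · rw [hG0, mem_filter] at ha
      exact ⟨ha.2.1, fun p hp hpa => PR_subset le_rfl hzy (ha.2.2 p hp hpa)⟩
  rw [sum_union hdis] at h13
  have h14 : (1 - 1 / (32 * D)) * ZB (PR u y) = ZB (PR u y) - ZB (PR u y) * (1 / (32 * D)) := by
    ring
  rw [h14]
  linarith

end Pool.Agent.H64.PLD
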