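import Pool.Agent.H23.PL.Targets

/-!
# Row SQF of `pld_modules`: few numbers are divisible by the square of a large prime
-/

set_option autoImplicit false

open Finset Polynomial Pool.Agent.H23.PL

namespace Pool.Agent.H64.PLD

theorem pf_SQF : T_SQF := by
  classical
  intro x y hy
  set k : ℕ := ⌊y⌋₊ with hk
  have hk1 : 1 ≤ k := by rw [hk]; exact Nat.le_floor (by simpa using hy)
  have hyk : y ≤ 2 * k := by
    have h1 : y < k + 1 := Nat.lt_floor_add_one y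
    have h2 : (1 : ℝ) ≤ k := by exact_mod_cast hk1
    linarith
  have hsub : ((Icc 1 x).filter fun r => ∃ p : ℕ, p.Prime ∧ y < p ∧ p ^ 2 ∣ r) ⊆
      (Ioc k x).biUnion fun n => (Ioc 0 x).filter fun r => n ^ 2 ∣ r := by
    intro r hr
    rw [mem_filter, mem_Icc] at hr
    obtain ⟨⟨h1, h2⟩, p, hp, hyp, hpr⟩ := hr
    rw [mem_biUnion]
    refine ⟨p, ?_, ?_⟩
    · rw [mem_Ioc]
      refine ⟨?_, ?_⟩
      · have h3 : (k : ℝ) < p := lt_of_le_of_lt (Nat.floor_le (by linarith)) hyp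
        exact_mod_cast h3
      · calc p ≤ p ^ 2 := Nat.le_self_pow (by norm_num) p
          _ ≤ r := Nat.le_of_dvd (by omega) hpr
          _ ≤ x := h2
    · rw [mem_filter, mem_Ioc]
      exact ⟨⟨by omega, h2⟩, hpr⟩
  have h1 : (((Icc 1 x).filter fun r => ∃ p : ℕ, p.Prime ∧ y < p ∧ p ^ 2 ∣ r).card : ℝ) ≤
      ∑ n ∈ Ioc k x, (x : ℝ) * ((n : ℝ) ^ 2)⁻¹ := by
    calc (((Icc 1 x).filter fun r => ∃ p : ℕ, p.Prime ∧ y < p ∧ p ^ 2 ∣ r).card : ℝ)
        ≤ (((Ioc k x).biUnion fun n => (Ioc 0 x).filter fun r => n ^ 2 ∣ r).card : ℝ) := by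
          exact_mod_cast card_le_card hsub
      _ ≤ ((∑ n ∈ Ioc k x, ((Ioc 0 x).filter fun r => n ^ 2 ∣ r).card : ℕ) : ℝ) := by
          exact_mod_cast card_biUnion_le
      _ = ∑ n ∈ Ioc k x, (((Ioc 0 x).filter fun r => n ^ 2 ∣ r).card : ℝ) := by push_cast; rfl
      _ ≤ ∑ n ∈ Ioc k x, (x : ℝ) * ((n : ℝ) ^ 2)⁻¹ := by
          refine sum_le_sum fun n _ => ?_
          rw [Nat.Ioc_filter_dvd_card_eq_div, ← div_eq_mul_inv]
          have h2 := @Nat.cast_div_le ℝ _ _ _ x (n ^ 2)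
          push_cast at h2
          exact h2
  have hy0 : 0 < y := by linarith
  by_cases hkx : k ≤ x
  · refine h1.trans ?_
    rw [← mul_sum]
    have h2 : ∑ n ∈ Ioc k x, ((n : ℝ) ^ 2)⁻¹ ≤ (k : ℝ)⁻¹ - (x : ℝ)⁻¹ :=
      sum_Ioc_inv_sq_le_sub (by omega) hkx
    have h3 : ((x : ℝ))⁻¹ ≥ 0 := by positivity
    have hk0 : (0 : ℝ) < k := by exact_mod_cast hk1
    have h4 : ((k : ℝ))⁻¹ ≤ 2 / y := by
      rw [inv_eq_one_div, div_le_div_iff₀ hk0 hy0]
      linarith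
    calc (x : ℝ) * ∑ n ∈ Ioc k x, ((n : ℝ) ^ 2)⁻¹ ≤ x * (2 / y) :=
          mul_le_mul_of_nonneg_left (by linarith) (by positivity)
      _ = 2 * x / y := by ring
  · refine h1.trans ?_
    rw [Ioc_eq_empty (by omega), sum_empty]
    positivity

end Pool.Agent.H64.PLD
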